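import Pool.Agent.KS6_48.PR.Mean
import Pool.Agent.KS6_48.PR.SevenMean

set_option autoImplicit false
set_option linter.unusedSectionVars false

/-!
# The mean profit of the cooperative Parrondo game is not monotone, for all `N ≥ 4`, `N ≠ 5`

The transition matrix `trans N p`, the mean profit `profit N p π`, `IsErgodic` and `IsStationary` are
those of the library module `MP_313e16_pr.NotMonotone`.
-/

namespace Pool.Agent.Results.MP_313e16_pr.AlmostEveryN

open Finset Matrix Pool.Agent.R964.Doeblin Pool.Agent.KS6_48.PR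
open Pool.Agent.Results.MP_313e16_pr.NotMonotone (nbr profit IsStationary)

/-- The mean profit is not monotone in the variable `p_j`: there are two ergodic parameter vectors
which agree except that `p_j < p'_j` and whose mean profits satisfy `μ^N(p) > μ^N(p')`. -/
def FailsAt (N : ℕ) [NeZero N] (j : Fin 4) : Prop :=
  ∃ p p' : Fin 4 → ℝ, (∀ i, 0 ≤ p i ∧ p i ≤ 1) ∧ (∀ i, 0 ≤ p' i ∧ p' i ≤ 1) ∧
    IsErgodic (NotMonotone.trans N p) ∧ IsErgodic (NotMonotone.trans N p') ∧
    (∀ i, i ≠ j → p i = p' i) ∧ p j < p' j ∧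
    ∀ π π' : (Fin N → Bool) → ℝ, IsStationary N p π → IsStationary N p' π' →
      profit N p' π' < profit N p π

/-- an intermediate form -/
def G3 (N : ℕ) [NeZero N] : Prop :=
  ∃ p p' : Fin 4 → ℝ, (∀ i, 0 ≤ p i ∧ p i < 1) ∧ (∀ i, 0 ≤ p' i ∧ p' i < 1) ∧
    (∀ i, i ≠ 3 → p i = p' i) ∧ p 3 < p' 3 ∧
    ∀ π π' : (Fin N → Bool) → ℝ, IsStationary N p π → IsStationary N p' π' →
      profit N p' π' < profit N p π

variable {N : ℕ} [NeZero N]

theorem fails3 (h : G3 N) : FailsAt N 3 := by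
  obtain ⟨p, p', hp, hp', h1, h2, h3⟩ := h
  refine ⟨p, p', fun i => ⟨(hp i).1, (hp i).2.le⟩, fun i => ⟨(hp' i).1, (hp' i).2.le⟩, ?_, ?_, h1, h2,
    h3⟩
  · exact ergodic_of (fun i => ⟨(hp i).1, (hp i).2.le⟩) false
      (fun m => by rw [coin_false]; linarith [(hp m).2])
  · exact ergodic_of (fun i => ⟨(hp' i).1, (hp' i).2.le⟩) false
      (fun m => by rw [coin_false]; linarith [(hp' m).2])

/-- complementary configuration -/
def cmp (x : Cfg N) : Cfg N := fun i => !(x i)

/-- complementary parameters -/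
def cpl (p : Fin 4 → ℝ) : Fin 4 → ℝ := fun m => 1 - p (Fin.rev m)

lemma cmp_cmp (x : Cfg N) : cmp (cmp x) = x := by
  funext i; simp [cmp]

/-- complement as an equivalence -/
def cmpE (N : ℕ) [NeZero N] : Cfg N ≃ Cfg N := ⟨cmp, cmp, cmp_cmp, cmp_cmp⟩

lemma nbr_cmp (x : Cfg N) (i : Fin N) : nbr (cmp x) i = Fin.rev (nbr x i) := by
  unfold nbr cmp
  cases x (i - 1) <;> cases x (i + 1) <;> rfl

lemma cmp_update (x : Cfg N) (i : Fin N) (b : Bool) :
    Function.update (cmp x) i b = cmp (Function.update x i (!b)) := by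
  funext j
  by_cases h : j = i
  · subst h; simp [cmp]
  · simp [cmp, Function.update_of_ne h]

lemma cmp_eq_iff (x y : Cfg N) : cmp x = cmp y ↔ x = y :=
  (cmpE N).injective.eq_iff

lemma trans_cmp (p : Fin 4 → ℝ) (x y : Cfg N) :
    NotMonotone.trans N (cpl p) (cmp x) (cmp y) = NotMonotone.trans N p x y := by
  unfold NotMonotone.trans
  simp only [Matrix.of_apply, nbr_cmp, cmp_update, cmp_eq_iff, cpl, Fin.rev_rev, Bool.not_true,
    Bool.not_false, sub_sub_cancel]
  congr 1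
  refine Finset.sum_congr rfl fun i _ => ?_
  rw [add_comm]

lemma stat_cmp {p : Fin 4 → ℝ} {π : Cfg N → ℝ} (h : IsStationary N (cpl p) π) :
    IsStationary N p (fun x => π (cmp x)) := by
  refine ⟨⟨fun x => h.1.nonneg _, ?_⟩, ?_⟩
  · rw [← h.1.sum_one]
    exact Equiv.sum_comp (cmpE N) π
  · funext y
    have h2 := congrFun h.2 (cmp y)
    simp only [vecMul, dotProduct] at h2 ⊢
    rw [← h2, ← Equiv.sum_comp (cmpE N) (fun x => π x * NotMonotone.trans N (cpl p) x (cmp y))]
    refine Finset.sum_congr rfl fun x _ => ?_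
    show π (cmp x) * NotMonotone.trans N p x y =
      π (cmp x) * NotMonotone.trans N (cpl p) (cmp x) (cmp y)
    rw [trans_cmp]

lemma profit_cmp (p : Fin 4 → ℝ) (π : Cfg N → ℝ) :
    profit N (cpl p) π = - profit N p (fun x => π (cmp x)) := by
  unfold profit
  rw [← Equiv.sum_comp (cmpE N), ← neg_div, ← Finset.sum_neg_distrib]
  congr 1
  refine Finset.sum_congr rfl fun x _ => ?_
  show π (cmp x) * ∑ i, (cpl p (nbr (cmp x) i) - (1 - cpl p (nbr (cmp x) i))) =
    -(π (cmp x) * ∑ i, (p (nbr x i) - (1 - p (nbr x i))))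
  rw [← mul_neg, ← Finset.sum_neg_distrib]
  congr 1
  refine Finset.sum_congr rfl fun i _ => ?_
  rw [nbr_cmp, cpl, Fin.rev_rev]
  ring

theorem fails0 (h : G3 N) : FailsAt N 0 := by
  obtain ⟨p, p', hp, hp', h1, h2, h3⟩ := h
  have hc : ∀ q : Fin 4 → ℝ, (∀ i, 0 ≤ q i ∧ q i < 1) → ∀ i, 0 < cpl q i ∧ cpl q i ≤ 1 := by
    intro q hq i
    unfold cpl
    have := hq (Fin.rev i)
    constructor <;> linarith [this.1, this.2]
  have e1 := hc p hp
  have e2 := hc p' hp'
  refine ⟨cpl p', cpl p, fun i => ⟨(e2 i).1.le, (e2 i).2⟩, fun i => ⟨(e1 i).1.le, (e1 i).2⟩,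
    ergodic_of (fun i => ⟨(e2 i).1.le, (e2 i).2⟩) true (fun m => (e2 m).1),
    ergodic_of (fun i => ⟨(e1 i).1.le, (e1 i).2⟩) true (fun m => (e1 m).1), ?_, ?_, ?_⟩
  · intro i hi
    unfold cpl
    rw [h1 (Fin.rev i)]
    intro h
    apply hi
    have := congrArg Fin.rev h
    rw [Fin.rev_rev] at this
    rw [this]
    rfl
  · show 1 - p' 3 < 1 - p 3
    linarith
  · intro π π' hπ hπ'
    rw [profit_cmp p π', profit_cmp p' π]
    have := h3 _ _ (stat_cmp hπ') (stat_cmp hπ)
    linarith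

/-- `N ≥ 6`, `N ≠ 7` -/
theorem g3_large (hN : 6 ≤ N) (hN7 : N ≠ 7) : G3 N := by
  have hNp := npos (N := N)
  have hN6 : (6 : ℝ) ≤ N := by exact_mod_cast hN
  have hk := kap_pos (N := N)
  have hκ1 : kap N ≤ 1 := by
    unfold kap
    apply pow_le_one₀ (by positivity)
    rw [div_le_one (by positivity)]
    linarith
  set L : ℝ := 2 * N + 3 with hL
  have hL0 : 0 < L := by rw [hL]; linarith
  set c : ℝ := kap N ^ 2 / (8 * N ^ 2 * L) with hc
  have hc0 : 0 < c := by positivity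
  have hcle : c * (8 * N ^ 2 * L) ≤ kap N ^ 2 := by
    rw [hc, div_mul_cancel₀]
    positivity
  have hc1 : c ≤ 1 / 2 := by
    rw [hc, div_le_div_iff₀ (by positivity) (by norm_num)]
    have : kap N ^ 2 ≤ 1 := pow_le_one₀ hk.le hκ1
    have h2 : (1 : ℝ) ≤ N ^ 2 := by nlinarith
    have h3 : (1 : ℝ) ≤ L := by rw [hL]; linarith
    nlinarith
  set a : ℝ := min c (kap N / (8 * L * (N * 4 ^ N))) with ha
  have ha0 : 0 < a := lt_min hc0 (by positivity)
  have hac : a ≤ c := min_le_left _ _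
  have ha2 : N * 4 ^ N * a ≤ kap N / (8 * L) := by
    calc N * 4 ^ N * a ≤ N * 4 ^ N * (kap N / (8 * L * (N * 4 ^ N))) := by
          apply mul_le_mul_of_nonneg_left (min_le_right _ _) (by positivity)
      _ = kap N / (8 * L) := by field_simp
  have hpc : ∀ c' : ℝ, 0 ≤ c' → c' ≤ 1 / 2 → ∀ i, 0 ≤ pc a c' i ∧ pc a c' i < 1 := by
    intro c' h0 h1 i
    fin_cases i
    · constructor
      · show (0 : ℝ) ≤ 1 - a; linarith
      · show (1 : ℝ) - a < 1; linarith
    · constructor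
      · show (0 : ℝ) ≤ 0; exact le_rfl
      · show (0 : ℝ) < 1; norm_num
    · constructor
      · show (0 : ℝ) ≤ 0; exact le_rfl
      · show (0 : ℝ) < 1; norm_num
    · constructor
      · show (0 : ℝ) ≤ c'; exact h0
      · show c' < (1 : ℝ); linarith
  have q1 := hpc 0 le_rfl (by norm_num)
  have q2 := hpc c hc0.le hc1
  refine ⟨pc a 0, pc a c, q1, q2, ?_, hc0, ?_⟩
  · intro i hi
    fin_cases i
    · rfl
    · rfl
    · rfl
    · exact absurd rfl hi
  · intro π π' hπ hπ'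
    have hE : IsErgodic (NotMonotone.trans N (pc a 0)) :=
      ergodic_of (fun i => ⟨(q1 i).1, (q1 i).2.le⟩) false
        (fun m => by rw [coin_false]; linarith [(q1 m).2])
    have m1 := mean_hc (by omega) ha0 (hac.trans hc1) hE hπ
    have m2 := mean_flow hN hN7 ha0.le hac hc0 hc1 hcle hπ'
    rw [profit_eq hπ, profit_eq hπ']
    have h8 : kap N / (8 * L) < kap N / (4 * L) := by
      apply div_lt_div_of_pos_left hk (by positivity) (by linarith)
    have hlt : mean π' < mean π := by linarith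
    have : 2 * mean π' / N < 2 * mean π / N := by
      apply div_lt_div_of_pos_right _ hNp
      linarith
    linarith

/-- `N = 7` -/
theorem g3_seven : G3 7 := by
  set a : ℝ := 1 / 10000000 with ha
  have hpc : ∀ c' : ℝ, 0 ≤ c' → c' ≤ 1 / 2 → ∀ i, 0 ≤ pc a c' i ∧ pc a c' i < 1 := by
    intro c' h0 h1 i
    fin_cases i
    · constructor
      · show (0 : ℝ) ≤ 1 - a; rw [ha]; norm_num
      · show (1 : ℝ) - a < 1; rw [ha]; norm_num
    · constructor
      · show (0 : ℝ) ≤ 0; exact le_rfl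
      · show (0 : ℝ) < 1; norm_num
    · constructor
      · show (0 : ℝ) ≤ 0; exact le_rfl
      · show (0 : ℝ) < 1; norm_num
    · constructor
      · show (0 : ℝ) ≤ c'; exact h0
      · show c' < (1 : ℝ); linarith
  have q1 := hpc 0 le_rfl (by norm_num)
  have q2 := hpc (1 / 5) (by norm_num) (by norm_num)
  refine ⟨pc a 0, pc a (1 / 5), q1, q2, ?_, ?_, ?_⟩
  · intro i hi
    fin_cases i
    · rfl
    · rfl
    · rfl
    · exact absurd rfl hi
  · show (0 : ℝ) < 1 / 5
    norm_num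
  · intro π π' hπ hπ'
    have hE : IsErgodic (NotMonotone.trans 7 (pc a 0)) :=
      ergodic_of (fun i => ⟨(q1 i).1, (q1 i).2.le⟩) false
        (fun m => by rw [coin_false]; linarith [(q1 m).2])
    have m1 := mean_hc (N := 7) (by norm_num) (by rw [ha]; norm_num) (by rw [ha]; norm_num) hE hπ
    have m2 := mean_seven (a := a) (by rw [ha]; norm_num) hπ'
    rw [profit_eq hπ, profit_eq hπ']
    have e1 : (((7 : ℕ) / 2 : ℕ) : ℝ) = 3 := by norm_num
    rw [e1] at m1
    have hlt : mean π' < mean π := by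
      rw [ha] at m1 m2
      norm_num at m1 m2
      linarith
    have : 2 * mean π' / ((7 : ℕ) : ℝ) < 2 * mean π / ((7 : ℕ) : ℝ) := by
      apply div_lt_div_of_pos_right _ (by norm_num)
      linarith
    linarith

/-- `N = 4` (library) -/
theorem g3_four : G3 4 := by
  obtain ⟨⟨p, p', π0, π0', rfl, rfl, hE, hE', hs, hs', hv, hv'⟩, -⟩ :=
    Pool.Agent.Results.MP_313e16_pr.NotMonotone.result
  have hb : ∀ i, 0 ≤ (![19/20, 1/20, 1/20, 1/20] : Fin 4 → ℝ) i ∧
      (![19/20, 1/20, 1/20, 1/20] : Fin 4 → ℝ) i < 1 := by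
    intro i
    fin_cases i <;> norm_num
  have hb' : ∀ i, 0 ≤ (![19/20, 1/20, 1/20, 1/5] : Fin 4 → ℝ) i ∧
      (![19/20, 1/20, 1/20, 1/5] : Fin 4 → ℝ) i < 1 := by
    intro i
    fin_cases i <;> norm_num
  refine ⟨_, _, hb, hb', ?_, ?_, ?_⟩
  · intro i hi
    fin_cases i
    · rfl
    · rfl
    · rfl
    · exact absurd rfl hi
  · show (1 / 20 : ℝ) < 1 / 5
    norm_num
  · intro π π' hπ hπ'
    obtain ⟨r, _, _, hu, _⟩ := hE
    obtain ⟨r', _, _, hu', _⟩ := hE'
    have e1 : π = π0 := by rw [hu π hπ.1 hπ.2, hu π0 hs.1 hs.2]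
    have e2 : π' = π0' := by rw [hu' π' hπ'.1 hπ'.2, hu' π0' hs'.1 hs'.2]
    rw [e1, e2, hv, hv']
    norm_num

/-- **The mean profit is not monotone for every number `N ≥ 4` of players, `N ≠ 5`.** For every
`N ≥ 4` with `N ≠ 5` the mean profit `μ^N` is neither monotone in `p_0` nor in `p_3`. -/
theorem result : ∀ (N : ℕ) [NeZero N], 4 ≤ N → N ≠ 5 → FailsAt N 0 ∧ FailsAt N 3 := by
  intro N _ h4 h5
  have h : G3 N := by
    rcases Nat.lt_or_ge N 6 with h | h
    · have : N = 4 := by omega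
      subst this
      exact g3_four
    · by_cases h7 : N = 7
      · subst h7
        exact g3_seven
      · exact g3_large h h7
  exact ⟨fails0 h, fails3 h⟩

end Pool.Agent.Results.MP_313e16_pr.AlmostEveryN
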